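import Pool.Agent.Q233.CFOc

/-!
# The average `𝔤`-purity does not decrease under complexified free operations

`𝔤` is a real Lie algebra of skew-Hermitian matrices (it need not be semisimple) which acts on a
finite-dimensional Hilbert space (irreducibly or not). For every finite family of elements `M_k` of
the group generated by the exponentials of the elements of `𝔤 ⊕ i 𝔤` and the nonzero scalars with
`∑ M_k† M_k = 1` and every unit vector `ψ` the average purity of the post-measurement states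
`M_k ψ / √p_k` is at least the purity of `ψ`. The same holds for mixed states, and for the square
root of the purity.

The main point is the Iwasawa decomposition `M_k = V_k B_k` with respect to the element
`ξ = ∑ ⟨G_i⟩ G_i`: `V_k` is unitary and normalises `𝔤`, `B_k` maps the spaces `⊕_{μ ≥ t} ker (ξ - μ)`
into themselves, and for such `B_k` with `∑ B_k† B_k = 1` one has `∑ B_k† ξ B_k ≥ ξ`.
-/

set_option autoImplicit false

namespace Pool.Agent.Results.MP_5b3ffa_mp.AveragePurity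

open Matrix
open scoped ComplexOrder

variable {n ι : Type} [Fintype n] [DecidableEq n] [Fintype ι] [DecidableEq ι]

/-- The real vector space `g` of complex matrices is a Lie algebra (closed under commutators) and
`i G_1, …, i G_D` is a real basis of it, where the `G_j` are Hermitian and orthogonal with a common
norm: `Tr (G_i G_j) = c δ_{ij}`, `c > 0`. -/
structure IsLieAlgebraWithBasis (g : Submodule ℝ (Matrix n n ℂ)) (G : ι → Matrix n n ℂ) (c : ℝ) :
    Prop where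
  commutator : ∀ X ∈ g, ∀ Y ∈ g, X * Y - Y * X ∈ g
  span : Submodule.span ℝ (Set.range fun i => Complex.I • G i) = g
  hermitian : ∀ i, (G i).IsHermitian
  orthogonal : ∀ i j, (G i * G j).trace = if i = j then (c : ℂ) else 0
  pos : 0 < c

/-- The group of complexified free operations: the group generated by the exponentials
`exp (X + i Y)`, `X, Y ∈ g`, and the nonzero scalar multiples of the identity. -/
def CFO (g : Submodule ℝ (Matrix n n ℂ)) : Subgroup (GL n ℂ) :=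
  Subgroup.closure
    ({M | ∃ X ∈ g, ∃ Y ∈ g, (M : Matrix n n ℂ) = NormedSpace.exp (X + Complex.I • Y)} ∪
      {M | ∃ z : ℂ, z ≠ 0 ∧ (M : Matrix n n ℂ) = z • (1 : Matrix n n ℂ)})

/-- The `g`-purity `(1 / N) ∑_i Tr[ρ G_i]²` of a density matrix `ρ`. -/
noncomputable def purity (N : ℝ) (G : ι → Matrix n n ℂ) (ρ : Matrix n n ℂ) : ℝ :=
  (1 / N) * ∑ i, (ρ * G i).trace.re ^ 2

/-- The density matrix `|ψ⟩⟨ψ|`. -/
def pureState (ψ : n → ℂ) : Matrix n n ℂ := vecMulVec ψ (star ψ)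

/-- The probability `⟨ψ| M† M |ψ⟩`. -/
noncomputable def prob (M : Matrix n n ℂ) (ψ : n → ℂ) : ℝ := (star ψ ⬝ᵥ ((Mᴴ * M) *ᵥ ψ)).re

/-- The post-measurement state `M |ψ⟩ / √p`, `p = ⟨ψ| M† M |ψ⟩`. -/
noncomputable def out (M : Matrix n n ℂ) (ψ : n → ℂ) : n → ℂ :=
  ((√(prob M ψ) : ℝ) : ℂ)⁻¹ • (M *ᵥ ψ)

/-- The probability `Tr (M ρ M†)`. -/
noncomputable def probD (M ρ : Matrix n n ℂ) : ℝ := (M * ρ * Mᴴ).trace.re

/-- The post-measurement state `M ρ M† / p`, `p = Tr (M ρ M†)`. -/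
noncomputable def outD (M ρ : Matrix n n ℂ) : Matrix n n ℂ :=
  ((probD M ρ : ℝ) : ℂ)⁻¹ • (M * ρ * Mᴴ)

section proofs

open Pool.Agent.Q233.CFO

lemma g_le {g : Submodule ℝ (Matrix n n ℂ)} {G : ι → Matrix n n ℂ} {c : ℝ}
    (hF : IsLieAlgebraWithBasis g G c) : ∀ X ∈ g, X ∈ Submodule.span ℂ (Set.range G) := by
  intro X hX
  rw [← hF.span] at hX
  induction hX using Submodule.span_induction with
  | mem x hx =>
    obtain ⟨i, rfl⟩ := hx
    exact Submodule.smul_mem _ _ (Submodule.subset_span ⟨i, rfl⟩)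
  | zero => exact zero_mem _
  | add x y _ _ hx hy => exact add_mem hx hy
  | smul a x _ hx =>
    have e : a • x = (a : ℂ) • x := by
      ext i j
      simp
    rw [e]
    exact Submodule.smul_mem _ _ hx

lemma lie_mem {g : Submodule ℝ (Matrix n n ℂ)} {G : ι → Matrix n n ℂ} {c : ℝ}
    (hF : IsLieAlgebraWithBasis g G c) (i j : ι) :
    G i * G j - G j * G i ∈ Submodule.span ℂ (Set.range G) := by
  have h1 : ∀ k, Complex.I • G k ∈ g := fun k => by
    rw [← hF.span]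
    exact Submodule.subset_span ⟨k, rfl⟩
  have h2 := g_le hF _ (hF.commutator _ (h1 i) _ (h1 j))
  have e : (Complex.I • G i) * (Complex.I • G j) - (Complex.I • G j) * (Complex.I • G i) =
      (-1 : ℂ) • (G i * G j - G j * G i) := by
    simp only [smul_mul_smul_comm, Complex.I_mul_I, smul_sub]
  rw [e] at h2
  have h3 := Submodule.smul_mem _ (-1 : ℂ) h2
  rwa [smul_smul, neg_one_mul, neg_neg, one_smul] at h3

lemma cfo_le {g : Submodule ℝ (Matrix n n ℂ)} {G : ι → Matrix n n ℂ} {c : ℝ}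
    (hF : IsLieAlgebraWithBasis g G c) : CFO g ≤ Nrm (Submodule.span ℂ (Set.range G)) := by
  unfold CFO
  rw [Subgroup.closure_le]
  have hW := span_lie (lie_mem hF)
  rintro M (⟨X, hX, Y, hY, hM⟩ | ⟨z, hz, hM⟩)
  · set A : Matrix n n ℂ := X + Complex.I • Y with hA
    have hAW : A ∈ Submodule.span ℂ (Set.range G) :=
      add_mem (g_le hF X hX) (Submodule.smul_mem _ _ (g_le hF Y hY))
    have hinv : (↑M⁻¹ : Matrix n n ℂ) = NormedSpace.exp (-A) := by
      rw [Matrix.exp_neg, ← hM]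
      exact (Matrix.coe_units_inv M)
    refine ⟨fun Z hZ => ?_, fun Z hZ => ?_⟩
    · rw [hinv, hM]
      exact exp_conj_mem_matrix _ hW A hAW Z hZ
    · rw [hinv, hM]
      have := exp_conj_mem_matrix _ hW (-A) (neg_mem hAW) Z hZ
      rwa [neg_neg] at this
  · have hinv : (↑M⁻¹ : Matrix n n ℂ) = z⁻¹ • (1 : Matrix n n ℂ) := by
      have h1 : (M : Matrix n n ℂ) * (z⁻¹ • (1 : Matrix n n ℂ)) = 1 := by
        rw [hM, smul_mul_smul_comm, mul_inv_cancel₀ hz, one_mul, one_smul]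
      have h2 : (↑M⁻¹ : Matrix n n ℂ) * (M : Matrix n n ℂ) = 1 := M.inv_mul
      exact left_inv_eq_right_inv h2 h1
    refine ⟨fun Z hZ => ?_, fun Z hZ => ?_⟩
    · rw [hinv, hM]
      have e : z • (1 : Matrix n n ℂ) * Z * (z⁻¹ • (1 : Matrix n n ℂ)) = Z := by
        rw [smul_mul_assoc, one_mul, mul_smul_comm, mul_one, smul_smul, inv_mul_cancel₀ hz, one_smul]
      rwa [e]
    · rw [hinv, hM]
      have e : z⁻¹ • (1 : Matrix n n ℂ) * Z * (z • (1 : Matrix n n ℂ)) = Z := by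
        rw [smul_mul_assoc, one_mul, mul_smul_comm, mul_one, smul_smul, mul_inv_cancel₀ hz, one_smul]
      rwa [e]

lemma trace_ex (B A : Matrix n n ℂ) : (Bᴴ * B * A).trace = ∑ a, ex (fun i => Bᴴ i a) A := by
  have h1 : (Bᴴ * B * A).trace = (B * A * Bᴴ).trace := by
    rw [mul_assoc, trace_mul_comm]
  rw [h1, trace]
  refine Finset.sum_congr rfl fun a _ => ?_
  rw [diag_apply, mul_assoc, mul_apply]
  unfold ex
  simp only [dotProduct, Pi.star_apply, conjTranspose_apply, star_star]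
  refine Finset.sum_congr rfl fun i _ => ?_
  rw [mul_apply]
  rfl

/-- The inequality for density matrices. -/
lemma density {g : Submodule ℝ (Matrix n n ℂ)} {G : ι → Matrix n n ℂ} {c : ℝ}
    (hF : IsLieAlgebraWithBasis g G c) {κ : Type} [Fintype κ] (M : κ → GL n ℂ)
    (hM : ∀ k, M k ∈ CFO g) (hsum : ∑ k, (M k : Matrix n n ℂ)ᴴ * (M k : Matrix n n ℂ) = 1)
    (ρ : Matrix n n ℂ) (hρ : ρ.PosSemidef) :
    √(∑ i, (ρ * G i).trace.re ^ 2) ≤
      ∑ k, √(∑ i, (((M k : Matrix n n ℂ) * ρ * (M k : Matrix n n ℂ)ᴴ) * G i).trace.re ^ 2) := by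
  obtain ⟨B, rfl⟩ : ∃ B : Matrix n n ℂ, ρ = Bᴴ * B := by
    obtain ⟨U, a, hU, hρU, hae⟩ := exists_dg hρ.isHermitian
    have ha : ∀ i, 0 ≤ a i := fun i => by rw [hae i]; exact hρ.eigenvalues_nonneg i
    refine ⟨dg U (fun i => √(a i)), ?_⟩
    rw [dg_herm, dg_mul hU, hρU]
    congr 1
    funext i
    exact (Real.mul_self_sqrt (ha i)).symm
  have h := main hF.hermitian hF.pos hF.orthogonal (lie_mem hF) M (fun k => cfo_le hF (hM k)) hsum
    (fun (a : n) (i : n) => Bᴴ i a)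
  have e1 : ∀ i, (Bᴴ * B * G i).trace.re = ∑ a, (ex (fun j => Bᴴ j a) (G i)).re := by
    intro i
    rw [trace_ex, Complex.re_sum]
  have e2 : ∀ k i, ((M k : Matrix n n ℂ) * (Bᴴ * B) * (M k : Matrix n n ℂ)ᴴ * G i).trace.re =
      ∑ a, (ex ((M k : Matrix n n ℂ) *ᵥ fun j => Bᴴ j a) (G i)).re := by
    intro k i
    have e3 : (M k : Matrix n n ℂ) * (Bᴴ * B) * (M k : Matrix n n ℂ)ᴴ =
        (B * (M k : Matrix n n ℂ)ᴴ)ᴴ * (B * (M k : Matrix n n ℂ)ᴴ) := by
      rw [conjTranspose_mul, conjTranspose_conjTranspose]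
      simp only [mul_assoc]
    rw [e3, trace_ex, Complex.re_sum]
    refine Finset.sum_congr rfl fun a _ => ?_
    congr 2
    funext j
    rw [conjTranspose_mul, conjTranspose_conjTranspose, mul_apply]
    rfl
  simp only [e1, e2]
  exact h

lemma probD_pos (M : GL n ℂ) (ρ : Matrix n n ℂ) (hρ : ρ.PosSemidef) (h1 : ρ.trace = 1) :
    0 < probD (M : Matrix n n ℂ) ρ := by
  have hp : ((M : Matrix n n ℂ) * ρ * (M : Matrix n n ℂ)ᴴ).PosSemidef :=
    hρ.mul_mul_conjTranspose_same _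
  have hnn : 0 ≤ ((M : Matrix n n ℂ) * ρ * (M : Matrix n n ℂ)ᴴ).trace := hp.trace_nonneg
  have hre : 0 ≤ probD (M : Matrix n n ℂ) ρ := (Complex.nonneg_iff.1 hnn).1
  refine lt_of_le_of_ne hre fun h => ?_
  have h0 : ((M : Matrix n n ℂ) * ρ * (M : Matrix n n ℂ)ᴴ).trace = 0 :=
    Complex.ext h.symm (Complex.nonneg_iff.1 hnn).2.symm
  have h2 := hp.trace_eq_zero_iff.1 h0
  have h3 : ρ = 0 := by
    have hi : (↑M⁻¹ : Matrix n n ℂ) * (M : Matrix n n ℂ) = 1 := M.inv_mul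
    have hi' : (M : Matrix n n ℂ)ᴴ * (↑M⁻¹ : Matrix n n ℂ)ᴴ = 1 := by
      rw [← conjTranspose_mul, hi, conjTranspose_one]
    calc ρ = ((↑M⁻¹ : Matrix n n ℂ) * (M : Matrix n n ℂ)) * ρ *
          ((M : Matrix n n ℂ)ᴴ * (↑M⁻¹ : Matrix n n ℂ)ᴴ) := by rw [hi, hi', one_mul, mul_one]
      _ = (↑M⁻¹ : Matrix n n ℂ) * ((M : Matrix n n ℂ) * ρ * (M : Matrix n n ℂ)ᴴ) *
          (↑M⁻¹ : Matrix n n ℂ)ᴴ := by simp only [mul_assoc]
      _ = 0 := by rw [h2]; simp
  rw [h3] at h1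
  simp at h1

lemma probD_sum {κ : Type} [Fintype κ] (M : κ → GL n ℂ)
    (hsum : ∑ k, (M k : Matrix n n ℂ)ᴴ * (M k : Matrix n n ℂ) = 1) (ρ : Matrix n n ℂ)
    (h1 : ρ.trace = 1) : ∑ k, probD (M k : Matrix n n ℂ) ρ = 1 := by
  unfold probD
  rw [← Complex.re_sum]
  have e : ∀ k, ((M k : Matrix n n ℂ) * ρ * (M k : Matrix n n ℂ)ᴴ).trace =
      ((M k : Matrix n n ℂ)ᴴ * (M k : Matrix n n ℂ) * ρ).trace := by
    intro k
    rw [trace_mul_comm, ← mul_assoc]
  have e2 : ∑ k, ((M k : Matrix n n ℂ)ᴴ * (M k : Matrix n n ℂ) * ρ).trace = 1 := by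
    rw [← h1, ← trace_sum Finset.univ fun k => (M k : Matrix n n ℂ)ᴴ * (M k : Matrix n n ℂ) * ρ,
      ← Finset.sum_mul, hsum, one_mul]
  simp only [e]
  rw [e2, Complex.one_re]

lemma purity_outD {N : ℝ} (hN : 0 < N) (G : ι → Matrix n n ℂ) (M ρ : Matrix n n ℂ)
    (hp : 0 < probD M ρ) : probD M ρ * √(purity N G (outD M ρ)) =
      √(1 / N) * √(∑ i, ((M * ρ * Mᴴ) * G i).trace.re ^ 2) := by
  have e : purity N G (outD M ρ) =
      (1 / N) * (((probD M ρ)⁻¹) ^ 2 * ∑ i, ((M * ρ * Mᴴ) * G i).trace.re ^ 2) := by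
    unfold purity outD
    congr 1
    rw [Finset.mul_sum]
    refine Finset.sum_congr rfl fun i _ => ?_
    rw [smul_mul_assoc, trace_smul, smul_eq_mul, ← Complex.ofReal_inv, Complex.re_ofReal_mul]
    ring
  rw [e, Real.sqrt_mul (by positivity), Real.sqrt_mul (by positivity),
    Real.sqrt_sq (by positivity)]
  field_simp

lemma final {g : Submodule ℝ (Matrix n n ℂ)} {G : ι → Matrix n n ℂ} {c : ℝ}
    (hF : IsLieAlgebraWithBasis g G c) {N : ℝ} (hN : 0 < N) {κ : Type} [Fintype κ]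
    (M : κ → GL n ℂ) (hM : ∀ k, M k ∈ CFO g)
    (hsum : ∑ k, (M k : Matrix n n ℂ)ᴴ * (M k : Matrix n n ℂ) = 1)
    (ρ : Matrix n n ℂ) (hρ : ρ.PosSemidef) (h1 : ρ.trace = 1) :
    √(purity N G ρ) ≤ ∑ k, probD (M k) ρ * √(purity N G (outD (M k) ρ)) ∧
      purity N G ρ ≤ ∑ k, probD (M k) ρ * purity N G (outD (M k) ρ) := by
  have hp : ∀ k, 0 < probD (M k : Matrix n n ℂ) ρ := fun k => probD_pos (M k) ρ hρ h1
  have hpur : ∀ σ : Matrix n n ℂ, 0 ≤ purity N G σ := fun σ => by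
    unfold purity
    positivity
  have hA : √(purity N G ρ) ≤ ∑ k, probD (M k) ρ * √(purity N G (outD (M k) ρ)) := by
    simp only [fun k => purity_outD hN G (M k : Matrix n n ℂ) ρ (hp k)]
    rw [← Finset.mul_sum]
    unfold purity
    rw [Real.sqrt_mul (by positivity)]
    exact mul_le_mul_of_nonneg_left (density hF M hM hsum ρ hρ) (Real.sqrt_nonneg _)
  refine ⟨hA, ?_⟩
  have hCS : (∑ k, probD (M k : Matrix n n ℂ) ρ * √(purity N G (outD (M k) ρ))) ^ 2 ≤
      (∑ k, probD (M k : Matrix n n ℂ) ρ) *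
        ∑ k, probD (M k : Matrix n n ℂ) ρ * purity N G (outD (M k) ρ) := by
    refine Finset.sum_sq_le_sum_mul_sum_of_sq_le_mul Finset.univ (fun k _ => (hp k).le)
      (fun k _ => mul_nonneg (hp k).le (hpur _)) (fun k _ => le_of_eq ?_)
    rw [mul_pow, Real.sq_sqrt (hpur _)]
    ring
  rw [probD_sum M hsum ρ h1, one_mul] at hCS
  refine le_trans ?_ hCS
  calc purity N G ρ = √(purity N G ρ) ^ 2 := (Real.sq_sqrt (hpur ρ)).symm
    _ ≤ _ := pow_le_pow_left₀ (Real.sqrt_nonneg _) hA 2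

lemma prob_eq (M : Matrix n n ℂ) (ψ : n → ℂ) : prob M ψ = probD M (pureState ψ) := by
  unfold prob probD pureState
  rw [mul_assoc, trace_mul_comm, mul_assoc, vecMulVec_mul, trace_vecMulVec]
  rw [dotProduct_mulVec, dotProduct_comm]

lemma out_eq (M : Matrix n n ℂ) (ψ : n → ℂ) : pureState (out M ψ) = outD M (pureState ψ) := by
  have hnn : 0 ≤ prob M ψ := by
    unfold prob
    rw [← mulVec_mulVec, dotProduct_mulVec, ← star_mulVec, star_dot_self]
    positivity
  have h1 : pureState (M *ᵥ ψ) = M * pureState ψ * Mᴴ := by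
    unfold pureState
    rw [mul_vecMulVec, vecMulVec_mul, star_mulVec]
  unfold outD
  rw [← prob_eq, ← h1]
  unfold out pureState
  rw [star_smul, smul_vecMulVec, vecMulVec_smul, smul_smul]
  congr 1
  rw [Complex.star_def, map_inv₀, Complex.conj_ofReal, ← mul_inv, ← Complex.ofReal_mul,
    Real.mul_self_sqrt hnn]

end proofs

/-- **The average `g`-purity does not decrease under complexified free operations.**
`g` is a real Lie algebra of matrices with the basis `i G_1, …, i G_D`, `M_k` (`k` in a finite set)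
are elements of the group of complexified free operations with `∑ M_k† M_k = 1`. For every unit
vector `ψ` the probabilities `p_k = ⟨ψ| M_k† M_k |ψ⟩` are positive and
`∑ p_k P(M_k |ψ⟩ / √p_k) ≥ P(|ψ⟩)`. For every density matrix `ρ` the same holds for `P` and for
`√P`. Here `P(ρ) = (1 / N) ∑ Tr[ρ G_i]²` with an arbitrary constant `N > 0`. -/
theorem result (g : Submodule ℝ (Matrix n n ℂ)) (G : ι → Matrix n n ℂ) (c : ℝ)
    (hF : IsLieAlgebraWithBasis g G c) (N : ℝ) (hN : 0 < N) {κ : Type} [Fintype κ]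
    (M : κ → GL n ℂ) (hM : ∀ k, M k ∈ CFO g)
    (hsum : ∑ k, (M k : Matrix n n ℂ)ᴴ * (M k : Matrix n n ℂ) = 1) :
    (∀ ψ : n → ℂ, star ψ ⬝ᵥ ψ = 1 →
      (∀ k, 0 < prob (M k) ψ) ∧
      purity N G (pureState ψ) ≤ ∑ k, prob (M k) ψ * purity N G (pureState (out (M k) ψ))) ∧
    (∀ ρ : Matrix n n ℂ, ρ.PosSemidef → ρ.trace = 1 →
      (∀ k, 0 < probD (M k) ρ) ∧
      purity N G ρ ≤ ∑ k, probD (M k) ρ * purity N G (outD (M k) ρ) ∧
      √(purity N G ρ) ≤ ∑ k, probD (M k) ρ * √(purity N G (outD (M k) ρ))) := by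
  refine ⟨fun ψ hψ => ?_, fun ρ hρ h1 => ?_⟩
  · have hρ : (pureState ψ).PosSemidef := posSemidef_vecMulVec_self_star ψ
    have h1 : (pureState ψ).trace = 1 := by
      unfold pureState
      rw [trace_vecMulVec, dotProduct_comm]
      exact hψ
    refine ⟨fun k => ?_, ?_⟩
    · rw [prob_eq]
      exact probD_pos (M k) _ hρ h1
    · simp only [prob_eq, out_eq]
      exact (final hF hN M hM hsum _ hρ h1).2
  · have h := final hF hN M hM hsum ρ hρ h1
    exact ⟨fun k => probD_pos (M k) ρ hρ h1, h.2, h.1⟩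

end Pool.Agent.Results.MP_5b3ffa_mp.AveragePurity
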